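import Pool.Agent.Z45.AM.Main

/-!
Antimatroids whose elements are primes.
-/

set_option autoImplicit false

namespace Pool.Agent.Z45.AM

open Finset
open scoped Pointwise

/-- accessible families of finite sets which contain the empty set and are closed under unions -/
def Anti (F : Finset (Finset ℕ)) : Prop :=
  ∅ ∈ F ∧ (∀ X ∈ F, ∀ Y ∈ F, X ∪ Y ∈ F) ∧ ∀ X ∈ F, X ≠ ∅ → ∃ x ∈ X, X.erase x ∈ F

lemma Anti.exchange {F : Finset (Finset ℕ)} (h : Anti F) {X : Finset ℕ} (hX : X ∈ F) :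
    ∀ n : ℕ, ∀ Y ∈ F, Y.card ≤ n → ¬ Y ⊆ X → ∃ p ∈ Y, p ∉ X ∧ insert p X ∈ F := by
  intro n
  induction n with
  | zero =>
    intro Y _ hn hYX
    exact absurd (by rw [card_eq_zero.1 (Nat.le_zero.1 hn)]; exact empty_subset X) hYX
  | succ n ih =>
    intro Y hY hn hYX
    have hne : Y ≠ ∅ := by rintro rfl; exact hYX (empty_subset X)
    obtain ⟨y, hy, hy'⟩ := h.2.2 Y hY hne
    by_cases hs : Y.erase y ⊆ X
    · have hyX : y ∉ X := fun hyX => hYX fun z hz => by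
        by_cases e : z = y
        · rw [e]; exact hyX
        · exact hs (mem_erase.2 ⟨e, hz⟩)
      refine ⟨y, hy, hyX, ?_⟩
      have e : insert y X = X ∪ Y := by
        ext z
        simp only [mem_insert, mem_union]
        constructor
        · rintro (rfl | hz)
          · exact Or.inr hy
          · exact Or.inl hz
        · rintro (hz | hz)
          · exact Or.inr hz
          · by_cases e : z = y
            · exact Or.inl e
            · exact Or.inr (hs (mem_erase.2 ⟨e, hz⟩))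
      rw [e]
      exact h.2.1 X hX Y hY
    · obtain ⟨p, hp, h1, h2⟩ := ih (Y.erase y) hy' (by rw [card_erase_of_mem hy]; omega) hs
      exact ⟨p, mem_of_mem_erase hp, h1, h2⟩

lemma mem_of_dvd {X : Finset ℕ} (hX : ∀ q ∈ X, q.Prime) {p : ℕ} (hp : p.Prime)
    (h : p ∣ ∏ q ∈ X, q) : p ∈ X := by
  obtain ⟨q, hq, hpq⟩ := (hp.prime.dvd_finsetProd_iff _).1 h
  rwa [(Nat.prime_dvd_prime_iff_eq hp (hX q hq)).1 hpq]

lemma sub_of_dvd {X Y : Finset ℕ} (hX : ∀ q ∈ X, q.Prime) (hY : ∀ q ∈ Y, q.Prime)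
    (h : (∏ q ∈ X, q) ∣ ∏ q ∈ Y, q) : X ⊆ Y := fun p hp =>
  mem_of_dvd hY (hX p hp) ((dvd_prod_of_mem (fun q => q) hp).trans h)

lemma prod_injOn {F : Finset (Finset ℕ)} (hF : ∀ X ∈ F, ∀ q ∈ X, q.Prime) :
    Set.InjOn (fun X : Finset ℕ => ∏ q ∈ X, q) (F : Set (Finset ℕ)) := by
  intro X hX Y hY h
  exact Subset.antisymm (sub_of_dvd (hF X hX) (hF Y hY) (dvd_of_eq h))
    (sub_of_dvd (hF Y hY) (hF X hX) (dvd_of_eq h.symm))

lemma lcm_prod {X Y : Finset ℕ} (hX : ∀ q ∈ X, q.Prime) (hY : ∀ q ∈ Y, q.Prime) :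
    Nat.lcm (∏ q ∈ X, q) (∏ q ∈ Y, q) = ∏ q ∈ X ∪ Y, q := by
  apply Nat.dvd_antisymm
  · exact Nat.lcm_dvd (prod_dvd_prod_of_subset _ _ _ subset_union_left)
      (prod_dvd_prod_of_subset _ _ _ subset_union_right)
  · refine Finset.prod_primes_dvd _ ?_ ?_
    · intro q hq
      rcases mem_union.1 hq with h | h
      · exact (hX q h).prime
      · exact (hY q h).prime
    · intro q hq
      rcases mem_union.1 hq with h | h
      · exact (dvd_prod_of_mem (fun q => q) h).trans (Nat.dvd_lcm_left _ _)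
      · exact (dvd_prod_of_mem (fun q => q) h).trans (Nat.dvd_lcm_right _ _)

/-- the products over the members of an antimatroid of primes -/
theorem Anti.acc {F : Finset (Finset ℕ)} (h : Anti F) (hF : ∀ X ∈ F, ∀ q ∈ X, q.Prime) :
    Acc (F.image fun X => ∏ q ∈ X, q) 1 := by
  refine ⟨mem_image.2 ⟨∅, h.1, prod_empty⟩, ?_, fun a _ => one_dvd a, ?_, ?_⟩
  · intro h0
    obtain ⟨X, hX, hX0⟩ := mem_image.1 h0
    obtain ⟨q, hq, hq0⟩ := prod_eq_zero_iff.1 hX0
    exact (hF X hX q hq).ne_zero hq0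
  · intro a ha b hb
    obtain ⟨X, hX, rfl⟩ := mem_image.1 ha
    obtain ⟨Y, hY, rfl⟩ := mem_image.1 hb
    rw [lcm_prod (hF X hX) (hF Y hY)]
    exact mem_image_of_mem _ (h.2.1 X hX Y hY)
  · intro a ha b hb hab hne
    obtain ⟨X, hX, rfl⟩ := mem_image.1 ha
    obtain ⟨Y, hY, rfl⟩ := mem_image.1 hb
    have hXY := sub_of_dvd (hF X hX) (hF Y hY) hab
    have hYX : ¬ Y ⊆ X := fun h' => hne (by rw [Subset.antisymm hXY h'])
    obtain ⟨p, hp, hpX, hpF⟩ := h.exchange hX Y.card Y hY le_rfl hYX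
    have e : (∏ q ∈ X, q) * p = ∏ q ∈ insert p X, q := by
      rw [prod_insert hpX, mul_comm]
    refine ⟨p, hF Y hY p hp, ?_, ?_⟩
    · rw [e]
      exact mem_image_of_mem _ hpF
    · rw [e]
      exact prod_dvd_prod_of_subset _ _ _ (insert_subset hp hXY)

end Pool.Agent.Z45.AM
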