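import Pool.Agent.TH83.SQ.Dilates
import Pool.Agent.N811.IS.Step

/-!
Sums of sets of integers which are closed under least common multiples and accessible by primes.
-/

set_option autoImplicit false

namespace Pool.Agent.Z45.AM

open Finset
open scoped Pointwise
open Pool.Agent.N811.IS (rho rho_mul_le le_rho one_le_rho rho_mono rho_step)
open Pool.Agent.TH83.SQ (dil pr dilates)

/-- `Q` has the least element `g` with respect to divisibility, is closed under least common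
multiples, and every multiple in `Q` of an element of `Q` is reached by steps with prime ratios. -/
def Acc (Q : Finset ℕ) (g : ℕ) : Prop :=
  g ∈ Q ∧ 0 ∉ Q ∧ (∀ a ∈ Q, g ∣ a) ∧ (∀ a ∈ Q, ∀ b ∈ Q, Nat.lcm a b ∈ Q) ∧
    ∀ a ∈ Q, ∀ b ∈ Q, a ∣ b → a ≠ b → ∃ p, p.Prime ∧ a * p ∈ Q ∧ a * p ∣ b

/-- the products `a ∏ T`, `a ∈ Q`, `T ⊆ S` -/
def Box (Q S : Finset ℕ) : Finset ℤ :=
  (Q ×ˢ S.powerset).image fun x => (x.1 : ℤ) * pr x.2

lemma mem_box {Q S : Finset ℕ} {z : ℤ} :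
    z ∈ Box Q S ↔ ∃ a ∈ Q, ∃ T ⊆ S, (a : ℤ) * pr T = z := by
  unfold Box
  simp only [mem_image, mem_product, mem_powerset, Prod.exists]
  constructor
  · rintro ⟨a, T, ⟨ha, hT⟩, h⟩
    exact ⟨a, ha, T, hT, h⟩
  · rintro ⟨a, ha, T, hT, h⟩
    exact ⟨a, T, ⟨ha, hT⟩, h⟩

lemma box_nonempty {Q S : Finset ℕ} (h : Q.Nonempty) : (Box Q S).Nonempty := by
  obtain ⟨a, ha⟩ := h
  exact ⟨_, mem_box.2 ⟨a, ha, ∅, empty_subset _, rfl⟩⟩

lemma acc_yes {Q : Finset ℕ} {g p : ℕ} (h : Acc Q g) (hgp : g * p ∈ Q) :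
    Acc (Q.filter fun a => g * p ∣ a) (g * p) := by
  obtain ⟨hg, h0, hd, hl, hs⟩ := h
  refine ⟨mem_filter.2 ⟨hgp, dvd_rfl⟩, fun h => h0 (mem_filter.1 h).1,
    fun a ha => (mem_filter.1 ha).2, ?_, ?_⟩
  · intro a ha b hb
    exact mem_filter.2 ⟨hl a (mem_filter.1 ha).1 b (mem_filter.1 hb).1,
      (mem_filter.1 ha).2.trans (Nat.dvd_lcm_left a b)⟩
  · intro a ha b hb hab hne
    obtain ⟨q, hq, h1, h2⟩ := hs a (mem_filter.1 ha).1 b (mem_filter.1 hb).1 hab hne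
    exact ⟨q, hq, mem_filter.2 ⟨h1, (mem_filter.1 ha).2.trans (Dvd.intro q rfl)⟩, h2⟩

lemma acc_no {Q : Finset ℕ} {g p : ℕ} (h : Acc Q g) (hp : p.Prime) :
    Acc (Q.filter fun a => ¬ g * p ∣ a) g := by
  obtain ⟨hg, h0, hd, hl, hs⟩ := h
  have hg0 : 0 < g := Nat.pos_of_ne_zero fun h => h0 (h ▸ hg)
  refine ⟨mem_filter.2 ⟨hg, ?_⟩, fun h => h0 (mem_filter.1 h).1,
    fun a ha => hd a (mem_filter.1 ha).1, ?_, ?_⟩
  · intro h
    have h1 := Nat.le_of_dvd hg0 h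
    have h2 := hp.two_le
    nlinarith
  · intro a ha b hb
    obtain ⟨ha, ha'⟩ := mem_filter.1 ha
    obtain ⟨hb, hb'⟩ := mem_filter.1 hb
    refine mem_filter.2 ⟨hl a ha b hb, ?_⟩
    obtain ⟨a', rfl⟩ := hd a ha
    obtain ⟨b', rfl⟩ := hd b hb
    rw [Nat.lcm_mul_left]
    intro h
    have h1 : p ∣ Nat.lcm a' b' := Nat.dvd_of_mul_dvd_mul_left hg0 h
    rcases hp.dvd_mul.1 (h1.trans (Nat.lcm_dvd_mul a' b')) with h2 | h2
    · exact ha' (Nat.mul_dvd_mul_left g h2)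
    · exact hb' (Nat.mul_dvd_mul_left g h2)
  · intro a ha b hb hab hne
    obtain ⟨q, hq, h1, h2⟩ := hs a (mem_filter.1 ha).1 b (mem_filter.1 hb).1 hab hne
    exact ⟨q, hq, mem_filter.2 ⟨h1, fun h => (mem_filter.1 hb).2 (h.trans h2)⟩, h2⟩

lemma shift {Q : Finset ℕ} {g p a : ℕ} (h : Acc Q g) (hp : p.Prime) (hgp : g * p ∈ Q)
    (ha : a ∈ Q) (hna : ¬ g * p ∣ a) : a * p ∈ Q := by
  obtain ⟨hg, h0, hd, hl, hs⟩ := h
  obtain ⟨a', rfl⟩ := hd a ha
  have h1 := hl _ ha _ hgp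
  rw [Nat.lcm_mul_left] at h1
  have h2 : ¬ p ∣ a' := fun h => hna (Nat.mul_dvd_mul_left g h)
  have h3 : Nat.Coprime a' p := ((Nat.Prime.coprime_iff_not_dvd hp).2 h2).symm
  rw [h3.lcm_eq_mul] at h1
  rwa [mul_assoc]

lemma card_split {Q : Finset ℕ} (r : ℕ → Prop) [DecidablePred r] :
    (Q.filter r).card + (Q.filter fun a => ¬ r a).card = Q.card :=
  card_filter_add_card_filter_not _

/-- the cheap step -/
lemma cheap {Q S : Finset ℕ} {g p : ℕ} {θ : ℝ} (hθ : 1 / 2 ≤ θ) (hθ1 : θ < 1) (h : Acc Q g)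
    (hp : p.Prime) (hS : ∀ q ∈ S, q.Prime) (hpS : p ∉ S) :
    rho θ (Box (Q.filter fun a => g * p ∣ a) S) +
      (2 ^ (1 - θ) - 1) * rho θ (Box (Q.filter fun a => ¬ g * p ∣ a) S) ≤ rho θ (Box Q S) := by
  obtain ⟨hg, h0, hd, hl, hs⟩ := h
  have hg0 : g ≠ 0 := fun h => h0 (h ▸ hg)
  obtain ⟨v, g', hg', hgv⟩ := Nat.exists_eq_pow_mul_and_not_dvd hg0 p hp.ne_one
  refine rho_step hθ hθ1 (AddSubgroup.zmultiples (((p ^ (v + 1) : ℕ)) : ℤ)) ?_ ?_ ?_ ?_
  · intro z hz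
    obtain ⟨a, ha, T, hT, rfl⟩ := mem_box.1 hz
    exact mem_box.2 ⟨a, (mem_filter.1 ha).1, T, hT, rfl⟩
  · intro z hz
    obtain ⟨a, ha, T, hT, rfl⟩ := mem_box.1 hz
    exact mem_box.2 ⟨a, (mem_filter.1 ha).1, T, hT, rfl⟩
  · intro z hz hz'
    obtain ⟨a, ha, T, hT, rfl⟩ := mem_box.1 hz
    obtain ⟨ha, hna⟩ := mem_filter.1 ha
    rw [Int.mem_zmultiples_iff] at hz'
    unfold pr at hz'
    have h1 : (p ^ (v + 1)) ∣ a * ∏ q ∈ T, q := by
      rw [← Int.natCast_dvd_natCast]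
      push_cast
      push_cast at hz'
      exact hz'
    have h2 : Nat.Coprime (p ^ (v + 1)) (∏ q ∈ T, q) := by
      refine Nat.Coprime.pow_left _ (Nat.Coprime.prod_right fun q hq => ?_)
      rw [Nat.coprime_primes hp (hS q (hT hq))]
      rintro rfl
      exact hpS (hT hq)
    have h3 := h2.dvd_of_dvd_mul_right h1
    obtain ⟨a', rfl⟩ := hd a ha
    rw [hgv, pow_succ, mul_assoc] at h3
    have h4 : p ∣ g' * a' := Nat.dvd_of_mul_dvd_mul_left (pow_pos hp.pos v) h3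
    rcases hp.dvd_mul.1 h4 with h5 | h5
    · exact hg' h5
    · exact hna (Nat.mul_dvd_mul_left g h5)
  · intro z hz
    obtain ⟨a, ha, T, hT, rfl⟩ := mem_box.1 hz
    obtain ⟨ha, hya⟩ := mem_filter.1 ha
    rw [Int.mem_zmultiples_iff]
    refine Dvd.dvd.mul_right ?_ _
    have h1 : p ^ (v + 1) ∣ a := by
      refine dvd_trans ?_ hya
      rw [hgv, pow_succ, mul_assoc]
      exact Nat.mul_dvd_mul_left _ (Dvd.intro_left g' rfl)
    exact_mod_cast h1

/-- the reservation of a prime -/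
lemma reserve {Q S : Finset ℕ} {g p : ℕ} (h : Acc Q g) (hp : p.Prime) (hgp : g * p ∈ Q) : Box (Q.filter fun a => ¬ g * p ∣ a) (insert p S) ⊆ Box Q S := by
  intro z hz
  obtain ⟨a, ha, T, hT, rfl⟩ := mem_box.1 hz
  obtain ⟨ha, hna⟩ := mem_filter.1 ha
  by_cases hpT : p ∈ T
  · refine mem_box.2 ⟨a * p, shift h hp hgp ha hna, T.erase p, ?_, ?_⟩
    · intro q hq
      obtain ⟨h1, h2⟩ := mem_erase.1 hq
      rcases mem_insert.1 (hT h2) with h3 | h3
      · exact absurd h3 h1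
      · exact h3
    · unfold pr
      rw [← Finset.mul_prod_erase T _ hpT]
      push_cast
      ring
  · refine mem_box.2 ⟨a, ha, T, ?_, rfl⟩
    intro q hq
    rcases mem_insert.1 (hT hq) with h3 | h3
    · rw [h3] at hq; exact absurd hq hpT
    · exact h3

/-- the end: `m` reserved primes -/
lemma leaf {δ θd C : ℝ} (hδ : 0 < δ) (hδ1 : δ ≤ 1 / 2)
    (hC : ∀ P : Finset ℕ, (∀ q ∈ P, q.Prime) → ∀ X B : Finset ℤ, X.Nonempty → B.Nonempty →
      θd * (Real.log X.card + Real.log B.card) ≤ P.card →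
      ∃ s ⊆ P, (1 - δ) * (Real.log X.card + Real.log B.card) - C ≤
        Real.log ((dil (pr s) X + B).card : ℝ)) (hθd : 0 < θd)
    {Q S : Finset ℕ} (hQ : Q.Nonempty) (hS : ∀ q ∈ S, q.Prime)
    (hm : θd * (1 + 1 / δ) * Real.log Q.card ≤ S.card) :
    min 1 (Real.exp (-C)) * (Q.card : ℝ) ^ (1 - δ) ≤ rho (1 - δ) (Box Q S) := by
  have cQ : (1 : ℝ) ≤ Q.card := by exact_mod_cast hQ.card_pos
  have cQ0 : (0 : ℝ) < Q.card := by linarith
  refine le_rho fun B hB => ?_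
  have cB : (1 : ℝ) ≤ B.card := by exact_mod_cast hB.card_pos
  have cB0 : (0 : ℝ) < B.card := by linarith
  by_cases hbig : (Q.card : ℝ) ^ (1 / δ) ≤ B.card
  · have h1 : (B.card : ℝ) ≤ ((Box Q S + B).card : ℝ) := by
      exact_mod_cast Finset.card_le_card_add_left (box_nonempty hQ)
    refine le_trans ?_ h1
    have h2 : (Q.card : ℝ) ≤ (B.card : ℝ) ^ δ := by
      have h3 := Real.rpow_le_rpow (by positivity) hbig hδ.le
      rw [← Real.rpow_mul cQ0.le] at h3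
      have e : 1 / δ * δ = 1 := by field_simp
      rwa [e, Real.rpow_one] at h3
    have h3 : (Q.card : ℝ) ^ (1 - δ) ≤ (B.card : ℝ) ^ δ := by
      refine le_trans ?_ h2
      have := Real.rpow_le_rpow_of_exponent_le cQ (by linarith : 1 - δ ≤ 1)
      rwa [Real.rpow_one] at this
    have h4 : (B.card : ℝ) ^ δ * (B.card : ℝ) ^ (1 - δ) = B.card := by
      rw [← Real.rpow_add cB0]
      have e : δ + (1 - δ) = 1 := by ring
      rw [e, Real.rpow_one]
    have h5 : min 1 (Real.exp (-C)) ≤ 1 := min_le_left _ _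
    have h6 : 0 ≤ (B.card : ℝ) ^ (1 - δ) := by positivity
    have h7 : 0 ≤ (Q.card : ℝ) ^ (1 - δ) := by positivity
    calc min 1 (Real.exp (-C)) * (Q.card : ℝ) ^ (1 - δ) * (B.card : ℝ) ^ (1 - δ)
        ≤ 1 * (Q.card : ℝ) ^ (1 - δ) * (B.card : ℝ) ^ (1 - δ) :=
          mul_le_mul_of_nonneg_right (mul_le_mul_of_nonneg_right h5 h7) h6
      _ ≤ (B.card : ℝ) ^ δ * (B.card : ℝ) ^ (1 - δ) := by
          rw [one_mul]
          exact mul_le_mul_of_nonneg_right h3 h6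
      _ = B.card := h4
  · push Not at hbig
    set X : Finset ℤ := Q.image fun a : ℕ => (a : ℤ) with hX
    have hXc : X.card = Q.card := card_image_of_injective _ Nat.cast_injective
    have hlog : Real.log B.card ≤ 1 / δ * Real.log Q.card := by
      have h1 := Real.log_le_log cB0 hbig.le
      rwa [Real.log_rpow cQ0] at h1
    obtain ⟨T, hT, h⟩ := hC S hS X B (hQ.image _) hB (by
      rw [hXc]
      refine le_trans ?_ hm
      have : θd * (1 + 1 / δ) * Real.log Q.card =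
        θd * (Real.log Q.card + 1 / δ * Real.log Q.card) := by ring
      rw [this]
      exact mul_le_mul_of_nonneg_left (by linarith) hθd.le)
    rw [hXc] at h
    have hsub : dil (pr T) X + B ⊆ Box Q S + B := by
      refine Finset.add_subset_add_right ?_
      intro z hz
      obtain ⟨x, hx, rfl⟩ := mem_image.1 hz
      obtain ⟨a, ha, rfl⟩ := mem_image.1 hx
      exact mem_box.2 ⟨a, ha, T, hT, mul_comm _ _⟩
    have hle : ((dil (pr T) X + B).card : ℝ) ≤ ((Box Q S + B).card : ℝ) := by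
      exact_mod_cast card_le_card hsub
    have hpos : (0 : ℝ) < ((dil (pr T) X + B).card : ℝ) := by
      have : (dil (pr T) X + B).Nonempty := ((hQ.image _).image _).add hB
      exact_mod_cast this.card_pos
    have h2 := Real.exp_le_exp.2 h
    rw [Real.exp_log hpos] at h2
    refine le_trans ?_ (h2.trans hle)
    have h3 : Real.exp ((1 - δ) * (Real.log Q.card + Real.log B.card) - C) =
        Real.exp (-C) * (Q.card : ℝ) ^ (1 - δ) * (B.card : ℝ) ^ (1 - δ) := by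
      rw [Real.rpow_def_of_pos cQ0, Real.rpow_def_of_pos cB0, ← Real.exp_add, ← Real.exp_add]
      congr 1
      ring
    rw [h3]
    have h6 : 0 ≤ (B.card : ℝ) ^ (1 - δ) := by positivity
    have h7 : 0 ≤ (Q.card : ℝ) ^ (1 - δ) := by positivity
    exact mul_le_mul_of_nonneg_right (mul_le_mul_of_nonneg_right (min_le_right _ _) h7) h6

/-- the numerical inequality of the cheap step -/
lemma num {δ : ℝ} (hδ : 0 < δ) (hδ1 : δ < 1) {a b : ℝ} (ha : 0 < a) (hb : 0 < b)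
    (h : b ≤ ((2 : ℝ) ^ δ - 1) ^ (1 / δ) * (a + b)) :
    (a + b) ^ (1 - δ) ≤ a ^ (1 - δ) + ((2 : ℝ) ^ δ - 1) * b ^ (1 - δ) := by
  have hc : 0 < (2 : ℝ) ^ δ - 1 := by
    have := Real.one_lt_rpow (by norm_num : (1 : ℝ) < 2) hδ
    linarith
  set n := a + b with hn
  have hn0 : 0 < n := by positivity
  have hs : 0 < 1 - δ := by linarith
  have h1 : a / n ≤ (a / n) ^ (1 - δ) := by
    have := Real.rpow_le_rpow_of_exponent_ge (x := a / n) (by positivity)
      (by rw [div_le_one hn0]; linarith) (by linarith : 1 - δ ≤ 1)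
    rwa [Real.rpow_one] at this
  have h2 : b / n ≤ ((2 : ℝ) ^ δ - 1) * (b / n) ^ (1 - δ) := by
    have h3 : b / n ≤ ((2 : ℝ) ^ δ - 1) ^ (1 / δ) := by rwa [div_le_iff₀ hn0]
    have h4 := Real.rpow_le_rpow (by positivity) h3 hδ.le
    rw [← Real.rpow_mul hc.le] at h4
    have e : 1 / δ * δ = 1 := by field_simp
    rw [e, Real.rpow_one] at h4
    have h5 : b / n = (b / n) ^ δ * (b / n) ^ (1 - δ) := by
      rw [← Real.rpow_add (by positivity)]
      have e : δ + (1 - δ) = 1 := by ring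
      rw [e, Real.rpow_one]
    calc b / n = (b / n) ^ δ * (b / n) ^ (1 - δ) := h5
      _ ≤ _ := mul_le_mul_of_nonneg_right h4 (by positivity)
  have h3 : a / n + b / n = 1 := by rw [← add_div, ← hn]; exact div_self hn0.ne'
  rw [Real.div_rpow ha.le hn0.le] at h1
  rw [Real.div_rpow hb.le hn0.le] at h2
  have hnp : 0 < n ^ (1 - δ) := by positivity
  have h4 : 1 ≤ (a ^ (1 - δ) + ((2 : ℝ) ^ δ - 1) * b ^ (1 - δ)) / n ^ (1 - δ) := by
    rw [add_div, mul_div_assoc]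
    linarith
  rwa [one_le_div hnp] at h4

end Pool.Agent.Z45.AM
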