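import Pool.Agent.Z45.AM.Core

/-!
The induction for lcm-closed sets which are accessible by primes.
-/

set_option autoImplicit false

namespace Pool.Agent.Z45.AM

open Finset
open scoped Pointwise
open Pool.Agent.N811.IS (rho rho_mul_le le_rho one_le_rho rho_mono rho_step)
open Pool.Agent.TH83.SQ (dil pr dilates)

/-- the threshold for cheap steps -/
noncomputable def thr (δ : ℝ) : ℝ := ((2 : ℝ) ^ δ - 1) ^ (1 / δ)

lemma c_pos {δ : ℝ} (hδ : 0 < δ) : 0 < (2 : ℝ) ^ δ - 1 := by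
  have := Real.one_lt_rpow (by norm_num : (1 : ℝ) < 2) hδ
  linarith

lemma c_lt {δ : ℝ} (hδ1 : δ < 1) : (2 : ℝ) ^ δ - 1 < 1 := by
  have := Real.rpow_lt_rpow_of_exponent_lt (by norm_num : (1 : ℝ) < 2) hδ1
  rw [Real.rpow_one] at this
  linarith

lemma thr_pos {δ : ℝ} (hδ : 0 < δ) : 0 < thr δ := Real.rpow_pos_of_pos (c_pos hδ) _

lemma thr_lt {δ : ℝ} (hδ : 0 < δ) (hδ1 : δ < 1) : thr δ < 1 :=
  Real.rpow_lt_one (c_pos hδ).le (c_lt hδ1) (by positivity)

theorem core {δ θd C : ℝ} (hδ : 0 < δ) (hδ1 : δ ≤ 1 / 2)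
    (hC : ∀ P : Finset ℕ, (∀ q ∈ P, q.Prime) → ∀ X B : Finset ℤ, X.Nonempty → B.Nonempty →
      θd * (Real.log X.card + Real.log B.card) ≤ P.card →
      ∃ s ⊆ P, (1 - δ) * (Real.log X.card + Real.log B.card) - C ≤
        Real.log ((dil (pr s) X + B).card : ℝ)) (hθd : 0 < θd) (m : ℕ) :
    ∀ n : ℕ, ∀ Q S : Finset ℕ, ∀ g j : ℕ, Q.card ≤ n → Acc Q g → (∀ q ∈ S, q.Prime) →
      (∀ q ∈ S, ∀ a ∈ Q, a * q ∉ Q) → S.card + j = m →
      θd * (1 + 1 / δ) * Real.log Q.card ≤ m →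
      min 1 (Real.exp (-C)) * thr δ ^ j * (Q.card : ℝ) ^ (1 - δ) ≤ rho (1 - δ) (Box Q S) := by
  have hu0 := thr_pos hδ
  have hu1 := thr_lt hδ (by linarith)
  set κ := min 1 (Real.exp (-C)) with hκ
  have hκ0 : 0 < κ := lt_min one_pos (Real.exp_pos _)
  have hκ1 : κ ≤ 1 := min_le_left _ _
  intro n
  induction n with
  | zero =>
    intro Q S g j hn hA
    exact absurd (card_pos.2 ⟨g, hA.1⟩) (by omega)
  | succ n ih =>
    intro Q S g j hn hA hS hfree hj hm
    have hQ : Q.Nonempty := ⟨g, hA.1⟩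
    have cQ0 : (0 : ℝ) < Q.card := by exact_mod_cast hQ.card_pos
    have hpj : thr δ ^ j ≤ 1 := pow_le_one₀ hu0.le hu1.le
    rcases Nat.eq_zero_or_pos j with h0 | hj0
    · subst h0
      rw [pow_zero, mul_one]
      refine leaf hδ hδ1 hC hθd hQ hS ?_
      rw [add_zero] at hj
      rw [hj]
      exact hm
    by_cases h1 : Q.card = 1
    · rw [h1, Nat.cast_one, Real.one_rpow, mul_one]
      refine le_trans ?_ (one_le_rho (by linarith) (box_nonempty hQ))
      calc κ * thr δ ^ j ≤ 1 * 1 := mul_le_mul hκ1 hpj (by positivity) (by norm_num)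
        _ = 1 := one_mul _
    obtain ⟨b, hb, hbg⟩ : ∃ b ∈ Q, b ≠ g := by
      by_contra hcon
      push Not at hcon
      exact h1 (card_eq_one.2 ⟨g, eq_singleton_iff_unique_mem.2 ⟨hA.1, hcon⟩⟩)
    obtain ⟨p, hp, hgp, hpb⟩ := hA.2.2.2.2 g hA.1 b hb (hA.2.2.1 b hb) (Ne.symm hbg)
    have hpS : p ∉ S := fun h => hfree p h g hA.1 hgp
    set Y := Q.filter fun a => g * p ∣ a with hY
    set N := Q.filter fun a => ¬ g * p ∣ a with hN
    have hsplit : Y.card + N.card = Q.card := card_split fun a => g * p ∣ a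
    have hAY : Acc Y (g * p) := acc_yes hA hgp
    have hAN : Acc N g := acc_no hA hp
    have cY : 0 < Y.card := card_pos.2 ⟨_, hAY.1⟩
    have cN : 0 < N.card := card_pos.2 ⟨_, hAN.1⟩
    have cY' : (0 : ℝ) < Y.card := by exact_mod_cast cY
    have cN' : (0 : ℝ) < N.card := by exact_mod_cast cN
    have hsplit' : (Y.card : ℝ) + N.card = Q.card := by exact_mod_cast hsplit
    have hK : 0 ≤ θd * (1 + 1 / δ) := by positivity
    have hmY : θd * (1 + 1 / δ) * Real.log Y.card ≤ m := by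
      refine le_trans (mul_le_mul_of_nonneg_left (Real.log_le_log cY' ?_) hK) hm
      linarith
    have hmN : θd * (1 + 1 / δ) * Real.log N.card ≤ m := by
      refine le_trans (mul_le_mul_of_nonneg_left (Real.log_le_log cN' ?_) hK) hm
      linarith
    have hfY : ∀ q ∈ S, ∀ a ∈ Y, a * q ∉ Y := fun q hq a ha h =>
      hfree q hq a (mem_filter.1 ha).1 (mem_filter.1 h).1
    have hfN : ∀ q ∈ S, ∀ a ∈ N, a * q ∉ N := fun q hq a ha h =>
      hfree q hq a (mem_filter.1 ha).1 (mem_filter.1 h).1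
    by_cases hu : (N.card : ℝ) ≤ thr δ * Q.card
    · -- the cheap step
      have e1 := ih Y S (g * p) j (by omega) hAY hS hfY hj hmY
      have e2 := ih N S g j (by omega) hAN hS hfN hj hmN
      have e3 := cheap (Q := Q) (S := S) (g := g) (p := p) (θ := 1 - δ) (by linarith)
        (by linarith) hA hp hS hpS
      have e : 1 - (1 - δ) = δ := by ring
      rw [e] at e3
      refine le_trans ?_ e3
      have h2 := num hδ (by linarith) cY' cN' (by rw [hsplit']; exact hu)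
      rw [hsplit'] at h2
      have hc := c_pos hδ
      have h3 : 0 ≤ κ * thr δ ^ j := by positivity
      calc κ * thr δ ^ j * (Q.card : ℝ) ^ (1 - δ)
          ≤ κ * thr δ ^ j * ((Y.card : ℝ) ^ (1 - δ) + ((2 : ℝ) ^ δ - 1) * (N.card : ℝ) ^ (1 - δ)) :=
            mul_le_mul_of_nonneg_left h2 h3
        _ = κ * thr δ ^ j * (Y.card : ℝ) ^ (1 - δ) +
            ((2 : ℝ) ^ δ - 1) * (κ * thr δ ^ j * (N.card : ℝ) ^ (1 - δ)) := by ring
        _ ≤ _ := add_le_add e1 (mul_le_mul_of_nonneg_left e2 hc.le)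
    · -- the reservation
      push Not at hu
      have e2 := ih N (insert p S) g (j - 1) (by omega) hAN
        (by
          intro q hq
          rcases mem_insert.1 hq with rfl | h
          · exact hp
          · exact hS q h)
        (by
          intro q hq a ha h
          rcases mem_insert.1 hq with rfl | h'
          · exact (mem_filter.1 h).2 (Nat.mul_dvd_mul_right (hA.2.2.1 a (mem_filter.1 ha).1) q)
          · exact hfN q h' a ha h)
        (by rw [card_insert_of_notMem hpS]; omega) hmN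
      have e4 := rho_mono (1 - δ) (reserve (S := S) hA hp hgp)
      refine le_trans ?_ (e2.trans e4)
      have h5 : thr δ * (Q.card : ℝ) ^ (1 - δ) ≤ (N.card : ℝ) ^ (1 - δ) := by
        have h6 : thr δ ≤ thr δ ^ (1 - δ) := by
          have := Real.rpow_le_rpow_of_exponent_ge hu0 hu1.le (by linarith : 1 - δ ≤ 1)
          rwa [Real.rpow_one] at this
        have h7 := Real.rpow_le_rpow (by positivity) hu.le (by linarith : 0 ≤ 1 - δ)
        rw [Real.mul_rpow hu0.le cQ0.le] at h7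
        exact (mul_le_mul_of_nonneg_right h6 (by positivity)).trans h7
      have h8 : thr δ ^ j = thr δ ^ (j - 1) * thr δ := by
        rw [← pow_succ]
        congr 1
        omega
      rw [h8]
      calc κ * (thr δ ^ (j - 1) * thr δ) * (Q.card : ℝ) ^ (1 - δ)
          = κ * thr δ ^ (j - 1) * (thr δ * (Q.card : ℝ) ^ (1 - δ)) := by ring
        _ ≤ _ := mul_le_mul_of_nonneg_left h5 (by positivity)

/-- the main theorem -/
theorem main (ε : ℝ) (hε : 0 < ε) : ∃ c : ℝ, 0 < c ∧ ∀ (A : Finset ℕ) (g : ℕ), Acc A g →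
    ∀ B : Finset ℤ, B.Nonempty →
      c * ((A.card : ℝ) * B.card) ^ (1 - ε) ≤
        (((A.image fun a : ℕ => (a : ℤ)) + B).card : ℝ) := by
  set δ := min (ε / 2) (1 / 2) with hδd
  have hδ : 0 < δ := by positivity
  have hδ1 : δ ≤ 1 / 2 := min_le_right _ _
  have hδ2 : 2 * δ ≤ ε := by
    have : δ ≤ ε / 2 := min_le_left _ _
    linarith
  have hu0 := thr_pos hδ
  have hu1 := thr_lt hδ (by linarith)
  set L := Real.log (1 / thr δ) with hL
  have hL0 : 0 < L := Real.log_pos (by rw [one_lt_div hu0]; exact hu1)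
  set θd := δ / ((1 + 1 / δ) * L) with hθ
  have hθd : 0 < θd := by positivity
  have hθL : θd * (1 + 1 / δ) * L = δ := by
    rw [hθ]
    field_simp
  obtain ⟨C, hC⟩ := dilates δ θd hδ hθd
  set κ := min 1 (Real.exp (-C)) with hκ
  have hκ0 : 0 < κ := lt_min one_pos (Real.exp_pos _)
  refine ⟨κ * thr δ, by positivity, ?_⟩
  intro A g hA B hB
  have hAn : A.Nonempty := ⟨g, hA.1⟩
  have cA : (1 : ℝ) ≤ A.card := by exact_mod_cast hAn.card_pos
  have cA0 : (0 : ℝ) < A.card := by linarith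
  have cB : (1 : ℝ) ≤ B.card := by exact_mod_cast hB.card_pos
  have cB0 : (0 : ℝ) < B.card := by linarith
  have hlA : 0 ≤ Real.log A.card := Real.log_nonneg cA
  set T := θd * (1 + 1 / δ) * Real.log A.card with hT
  have hT0 : 0 ≤ T := by positivity
  set m := ⌈T⌉₊ with hm
  have hm1 : T ≤ m := Nat.le_ceil _
  have hm2 : (m : ℝ) ≤ T + 1 := (Nat.ceil_lt_add_one hT0).le
  have h := core hδ hδ1 hC hθd m A.card A ∅ g m le_rfl hA (by simp) (by simp) (by simp) hm1
  have hbox : Box A ∅ = A.image fun a : ℕ => (a : ℤ) := by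
    ext z
    rw [mem_box, mem_image]
    constructor
    · rintro ⟨a, ha, T, hT, rfl⟩
      rw [subset_empty.1 hT]
      exact ⟨a, ha, by simp [pr]⟩
    · rintro ⟨a, ha, rfl⟩
      exact ⟨a, ha, ∅, empty_subset _, by simp [pr]⟩
  rw [hbox] at h
  have h2 := rho_mul_le (1 - δ) (A.image fun a : ℕ => (a : ℤ)) hB
  have h3 : thr δ * (A.card : ℝ) ^ (-δ) ≤ thr δ ^ m := by
    rw [← Real.rpow_natCast, Real.rpow_def_of_pos hu0 (m : ℝ), Real.rpow_def_of_pos cA0]
    have e1 : Real.log (thr δ) = -L := by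
      rw [hL, one_div, Real.log_inv]; ring
    have e2 : thr δ = Real.exp (-L) := by rw [← e1, Real.exp_log hu0]
    rw [e1]
    nth_rewrite 1 [e2]
    rw [← Real.exp_add]
    apply Real.exp_le_exp.2
    have e3 : Real.log A.card * -δ = -(T * L) := by
      rw [hT]
      have : θd * (1 + 1 / δ) * Real.log A.card * L = θd * (1 + 1 / δ) * L * Real.log A.card := by
        ring
      rw [this, hθL]
      ring
    rw [e3]
    nlinarith
  have h4 : κ * thr δ * (A.card : ℝ) ^ (1 - 2 * δ) ≤ κ * thr δ ^ m * (A.card : ℝ) ^ (1 - δ) := by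
    have e : (A.card : ℝ) ^ (1 - 2 * δ) = (A.card : ℝ) ^ (-δ) * (A.card : ℝ) ^ (1 - δ) := by
      rw [← Real.rpow_add cA0]
      congr 1
      ring
    rw [e]
    calc κ * thr δ * ((A.card : ℝ) ^ (-δ) * (A.card : ℝ) ^ (1 - δ))
        = κ * (thr δ * (A.card : ℝ) ^ (-δ)) * (A.card : ℝ) ^ (1 - δ) := by ring
      _ ≤ _ := by
        apply mul_le_mul_of_nonneg_right _ (by positivity)
        exact mul_le_mul_of_nonneg_left h3 hκ0.le
  have h5 : (B.card : ℝ) ^ (1 - 2 * δ) ≤ (B.card : ℝ) ^ (1 - δ) :=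
    Real.rpow_le_rpow_of_exponent_le cB (by linarith)
  have h6 : ((A.card : ℝ) * B.card) ^ (1 - ε) ≤
      (A.card : ℝ) ^ (1 - 2 * δ) * (B.card : ℝ) ^ (1 - 2 * δ) := by
    rw [← Real.mul_rpow cA0.le cB0.le]
    exact Real.rpow_le_rpow_of_exponent_le (by nlinarith) (by linarith)
  calc κ * thr δ * ((A.card : ℝ) * B.card) ^ (1 - ε)
      ≤ κ * thr δ * ((A.card : ℝ) ^ (1 - 2 * δ) * (B.card : ℝ) ^ (1 - 2 * δ)) :=
        mul_le_mul_of_nonneg_left h6 (by positivity)
    _ = κ * thr δ * (A.card : ℝ) ^ (1 - 2 * δ) * (B.card : ℝ) ^ (1 - 2 * δ) := by ring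
    _ ≤ κ * thr δ ^ m * (A.card : ℝ) ^ (1 - δ) * (B.card : ℝ) ^ (1 - δ) :=
        mul_le_mul h4 h5 (by positivity) (by positivity)
    _ ≤ rho (1 - δ) (A.image fun a : ℕ => (a : ℤ)) * (B.card : ℝ) ^ (1 - δ) :=
        mul_le_mul_of_nonneg_right h (by positivity)
    _ ≤ _ := h2

end Pool.Agent.Z45.AM
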